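import Mathlib

set_option autoImplicit false

open Real

namespace H14R3.Pure

theorem wexp {α : ℝ} (h0 : 0 ≤ α) (h1 : α ≤ 1) (a b : ℝ) :
    Real.exp (α * a + (1 - α) * b) ≤ α * Real.exp a + (1 - α) * Real.exp b := by
  have := convexOn_exp.2 (Set.mem_univ a) (Set.mem_univ b) h0 (by linarith : 0 ≤ 1 - α)
    (by ring : α + (1 - α) = 1)
  simpa [smul_eq_mul] using this

theorem amgm2 {α s : ℝ} {k : ℕ} (hk : 1 ≤ k) (hα0 : 0 ≤ α) (hα1 : α ≤ 1) (hs0 : 0 ≤ s)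
    (hs1 : s ≤ 1) (h : 2 * α + ((k : ℝ) - 1) * s = 1) {A B : ℝ} (hA : 0 < A) (hB : 0 < B) :
    A * B ^ k ≤ (α * A + (1 - α) * B) ^ 2 * (s * A + (1 - s) * B) ^ (k - 1) := by
  obtain ⟨a, rfl⟩ : ∃ a, A = Real.exp a := ⟨Real.log A, (Real.exp_log hA).symm⟩
  obtain ⟨b, rfl⟩ : ∃ b, B = Real.exp b := ⟨Real.log B, (Real.exp_log hB).symm⟩
  have h1 := wexp hα0 hα1 a b
  have h2 := wexp hs0 hs1 a b
  have h3 := pow_le_pow_left₀ (Real.exp_pos _).le h1 2
  have h4 := pow_le_pow_left₀ (Real.exp_pos _).le h2 (k - 1)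
  calc Real.exp a * Real.exp b ^ k
      = Real.exp (α * a + (1 - α) * b) ^ 2 * Real.exp (s * a + (1 - s) * b) ^ (k - 1) := by
        rw [← Real.exp_nat_mul, ← Real.exp_nat_mul, ← Real.exp_nat_mul, ← Real.exp_add,
          ← Real.exp_add]
        congr 1
        rw [Nat.cast_sub hk]
        push_cast
        linear_combination (b - a) * h
    _ ≤ _ := by
        apply mul_le_mul h3 h4 (by positivity) (by positivity)

/-- the minimiser -/
noncomputable def root (a b : ℝ) (k : ℕ) : ℝ :=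
  2 * b / ((a + k * b) + √((a + k * b) ^ 2 + 4 * ((k : ℝ) - 1) * (a - b) * b))

/-- the sharp bound -/
noncomputable def bnd (a b : ℝ) (k : ℕ) : ℝ :=
  (b + (a - b) * root a b k) / (√(root a b k) * √(1 - root a b k) ^ k)

theorem disc_pos {a b : ℝ} (ha : 0 < a) (hb : 0 < b) {k : ℕ} (hk : 2 ≤ k) :
    0 < (a + k * b) ^ 2 + 4 * ((k : ℝ) - 1) * (a - b) * b := by
  have hk2 : (2 : ℝ) ≤ k := by exact_mod_cast hk
  have : (a + k * b) ^ 2 + 4 * ((k : ℝ) - 1) * (a - b) * b =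
      a ^ 2 + (6 * k - 4) * (a * b) + (k - 2) ^ 2 * b ^ 2 := by ring
  rw [this]
  have h1 : 0 < (6 * (k : ℝ) - 4) * (a * b) := by
    apply mul_pos (by linarith) (by positivity)
  positivity

theorem root_eq {a b : ℝ} (ha : 0 < a) (hb : 0 < b) {k : ℕ} (hk : 2 ≤ k) :
    ((k : ℝ) - 1) * (a - b) * root a b k ^ 2 + (a + k * b) * root a b k - b = 0 := by
  have hd := disc_pos ha hb hk
  have hk2 : (2 : ℝ) ≤ k := by exact_mod_cast hk
  set D := √((a + k * b) ^ 2 + 4 * ((k : ℝ) - 1) * (a - b) * b) with hD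
  have hDs : D ^ 2 = (a + k * b) ^ 2 + 4 * ((k : ℝ) - 1) * (a - b) * b := Real.sq_sqrt hd.le
  have hD0 : 0 < D := Real.sqrt_pos.2 hd
  have hden : 0 < (a + k * b) + D := by positivity
  have hr : root a b k = 2 * b / ((a + k * b) + D) := rfl
  rw [hr]
  field_simp
  nlinarith [hDs]

theorem root_pos {a b : ℝ} (ha : 0 < a) (hb : 0 < b) {k : ℕ} : 0 < root a b k := by
  unfold root
  positivity

theorem root_lt_one {a b : ℝ} (ha : 0 < a) (hb : 0 < b) {k : ℕ} (hk : 2 ≤ k) :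
    root a b k < 1 := by
  have hk2 : (2 : ℝ) ≤ k := by exact_mod_cast hk
  unfold root
  have h1 : 0 ≤ √((a + k * b) ^ 2 + 4 * ((k : ℝ) - 1) * (a - b) * b) := Real.sqrt_nonneg _
  rw [div_lt_one (by positivity)]
  nlinarith

theorem bnd_ineq {a b : ℝ} (ha : 0 < a) (hb : 0 < b) {k : ℕ} (hk : 2 ≤ k) {x y : ℝ}
    (hx : 0 ≤ x) (hy : 0 ≤ y) :
    bnd a b k * (x * y ^ k) ≤ (a * x ^ 2 + b * y ^ 2) * √(x ^ 2 + y ^ 2) ^ (k - 1) := by
  have hs0 := root_pos (k := k) ha hb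
  have hs1 := root_lt_one ha hb hk
  have hreq := root_eq ha hb hk
  unfold bnd
  set s := root a b k with hs
  have hk2 : (2 : ℝ) ≤ k := by exact_mod_cast hk
  have h1s : 0 < 1 - s := by linarith
  have hw : 0 < b + (a - b) * s := by nlinarith
  have hsq : 0 < √s * √(1 - s) ^ k := by
    have := Real.sqrt_pos.2 hs0
    have := Real.sqrt_pos.2 h1s
    positivity
  rcases hx.eq_or_lt with hx | hx
  · rw [← hx, zero_mul, mul_zero]; positivity
  rcases hy.eq_or_lt with hy | hy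
  · rw [← hy, zero_pow (by omega), mul_zero, mul_zero]; positivity
  -- squares
  have hR : 0 < x ^ 2 + y ^ 2 := by positivity
  have hA : 0 < x ^ 2 / s := by positivity
  have hB : 0 < y ^ 2 / (1 - s) := by positivity
  have hw' : b + (a - b) * s ≠ 0 := hw.ne'
  have hα : 2 * (a * s / (b + (a - b) * s)) + ((k : ℝ) - 1) * s = 1 := by
    have : 2 * (a * s / (b + (a - b) * s)) + ((k : ℝ) - 1) * s - 1 =
        (((k : ℝ) - 1) * (a - b) * s ^ 2 + (a + k * b) * s - b) / (b + (a - b) * s) := by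
      rw [eq_div_iff hw', sub_mul, add_mul, mul_assoc 2, div_mul_cancel₀ _ hw']
      ring
    rw [hreq, zero_div] at this
    linarith
  have hα0 : 0 ≤ a * s / (b + (a - b) * s) := by positivity
  have hα1 : a * s / (b + (a - b) * s) ≤ 1 := by
    rw [div_le_one hw]; nlinarith
  have key := amgm2 (by omega : 1 ≤ k) hα0 hα1 hs0.le hs1.le hα hA hB
  have e1 : s * (x ^ 2 / s) + (1 - s) * (y ^ 2 / (1 - s)) = x ^ 2 + y ^ 2 := by
    field_simp
  have e2 : (a * s / (b + (a - b) * s)) * (x ^ 2 / s) +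
      (1 - a * s / (b + (a - b) * s)) * (y ^ 2 / (1 - s)) =
      (a * x ^ 2 + b * y ^ 2) / (b + (a - b) * s) := by
    have h5 : 1 - a * s / (b + (a - b) * s) = b * (1 - s) / (b + (a - b) * s) := by
      rw [eq_div_iff hw', sub_mul, div_mul_cancel₀ _ hw']
      ring
    rw [h5]
    generalize b + (a - b) * s = W at hw'
    field_simp
  rw [e1, e2] at key
  have hsqR : √(x ^ 2 + y ^ 2) ^ 2 = x ^ 2 + y ^ 2 := Real.sq_sqrt hR.le
  have hsqs : √s ^ 2 = s := Real.sq_sqrt hs0.le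
  have hsq1 : √(1 - s) ^ 2 = 1 - s := Real.sq_sqrt h1s.le
  apply le_of_sq_le_sq _ (by positivity)
  have e3 : ((b + (a - b) * s) / (√s * √(1 - s) ^ k) * (x * y ^ k)) ^ 2 =
      (b + (a - b) * s) ^ 2 * (x ^ 2 / s * (y ^ 2 / (1 - s)) ^ k) := by
    rw [mul_pow, div_pow, mul_pow, ← pow_mul, mul_comm k 2, pow_mul, hsqs, hsq1, mul_pow,
      ← pow_mul, mul_comm k 2, pow_mul, div_pow]
    field_simp
  have e4 : ((a * x ^ 2 + b * y ^ 2) * √(x ^ 2 + y ^ 2) ^ (k - 1)) ^ 2 =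
      (b + (a - b) * s) ^ 2 * (((a * x ^ 2 + b * y ^ 2) / (b + (a - b) * s)) ^ 2 *
        (x ^ 2 + y ^ 2) ^ (k - 1)) := by
    rw [mul_pow, ← pow_mul, mul_comm (k - 1) 2, pow_mul, hsqR, div_pow]
    field_simp
  rw [e3, e4]
  exact mul_le_mul_of_nonneg_left key (by positivity)

end H14R3.Pure
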