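import Mathlib
import Pool.Agent.H14R3.Cara.Avg

set_option autoImplicit false

open Complex Metric Set Filter Topology Real

namespace H14R3.Pure

open H14R3.Cara

variable {E : Type} [NormedAddCommGroup E] [InnerProductSpace ℂ E] [FiniteDimensional ℂ E]

theorem circInt_of_cont {F : Type} [NormedAddCommGroup F] {f : ℂ → F}
    (hf : ∀ z : ℂ, ‖z‖ = 1 → ContinuousAt f z) : CircleIntegrable f 0 1 := by
  apply ContinuousOn.circleIntegrable (by norm_num)
  intro z hz
  exact (hf z (by simpa using hz)).continuousWithinAt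

/-- the disc `z ↦ p z^m v + q z u` -/
noncomputable def psi (p q : ℂ) (u v : E) (m : ℕ) (z : ℂ) : E :=
  (p * z ^ m) • v + (q * z) • u

omit [FiniteDimensional ℂ E] in
theorem norm_psi_sq {p q : ℂ} {u v : E} (hu : ‖u‖ = 1) (hv : ‖v‖ = 1) (huv : inner ℂ u v = (0:ℂ))
    (m : ℕ) (z : ℂ) :
    ‖psi p q u v m z‖ ^ 2 = (‖p‖ * ‖z‖ ^ m) ^ 2 + (‖q‖ * ‖z‖) ^ 2 := by
  unfold psi
  have h1 : inner ℂ ((p * z ^ m) • v) ((q * z) • u) = (0 : ℂ) := by
    rw [inner_smul_left, inner_smul_right]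
    have : inner ℂ v u = (0 : ℂ) := by rw [← inner_conj_symm, huv, map_zero]
    rw [this]; ring
  have h2 := norm_add_sq_eq_norm_sq_add_norm_sq_of_inner_eq_zero _ _ h1
  rw [sq, h2, norm_smul, norm_smul, hu, hv, norm_mul, norm_mul, norm_pow]
  ring

theorem key {h : E → E} (hol : DifferentiableOn ℂ h (ball 0 1)) (h0 : h 0 = 0)
    {A : E →L[ℂ] E} (hd : fderiv ℂ h 0 = A)
    (hpos : ∀ z ∈ ball (0 : E) 1, z ≠ 0 → 0 < (inner ℂ z (h z)).re)
    {u v : E} (hu : ‖u‖ = 1) (hv : ‖v‖ = 1) (huv : inner ℂ u v = (0 : ℂ)) {m : ℕ} (hm : 2 ≤ m)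
    {p q : ℝ} (hp : 0 < p) (hq : 0 < q) (hpq : p ^ 2 + q ^ 2 < 1) :
    0 ≤ p ^ 2 * (inner ℂ v (A v)).re + q ^ 2 * (inner ℂ u (A u)).re + p * q ^ m *
      (inner ℂ v (((m.factorial : ℂ)⁻¹) • iteratedFDeriv ℂ m h 0 (fun _ => u))).re := by
  set H : ℂ → E := fun z => h (psi p q u v m z) with hH
  set Pu : E := ((m.factorial : ℂ)⁻¹) • iteratedFDeriv ℂ m h 0 (fun _ => u) with hPu
  have hopen : IsOpen (ball (0 : E) 1) := isOpen_ball
  have h0mem : (0 : E) ∈ ball (0 : E) 1 := by simp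
  have hcd : ContDiffAt ℂ 1 h 0 := by
    have := Pool.Agent.Helper540.contDiffOn_of_differentiableOn hopen hol 1
    exact (this.contDiffAt (hopen.mem_nhds h0mem))
  have hstrict : HasStrictFDerivAt h A 0 := by
    rw [← hd]
    exact hcd.hasStrictFDerivAt one_ne_zero
  have hpn : ‖(p : ℂ)‖ = p := by rw [Complex.norm_real, Real.norm_of_nonneg hp.le]
  have hqn : ‖(q : ℂ)‖ = q := by rw [Complex.norm_real, Real.norm_of_nonneg hq.le]
  have hball : ∀ z : ℂ, ‖z‖ ≤ 1 → psi (p : ℂ) q u v m z ∈ ball (0 : E) 1 := by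
    intro z hz
    rw [mem_ball_zero_iff]
    have h1 := norm_psi_sq (p := (p : ℂ)) (q := (q : ℂ)) hu hv huv m z
    rw [hpn, hqn] at h1
    have h2 : ‖z‖ ^ m ≤ 1 := pow_le_one₀ (norm_nonneg _) hz
    have h3 : p * ‖z‖ ^ m ≤ p := by nlinarith
    have h4 : q * ‖z‖ ≤ q := by nlinarith
    have h5 : 0 ≤ p * ‖z‖ ^ m := by positivity
    have h6 : 0 ≤ q * ‖z‖ := by positivity
    have h7 : ‖psi (p : ℂ) q u v m z‖ ^ 2 < 1 := by nlinarith
    have := norm_nonneg (psi (p : ℂ) q u v m z)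
    nlinarith
  have hpsid : Differentiable ℂ (psi (p : ℂ) q u v m) := by
    unfold psi; fun_prop
  have hHd : ∀ z : ℂ, ‖z‖ ≤ 1 → DifferentiableAt ℂ H z := by
    intro z hz
    have h1 : DifferentiableAt ℂ h (psi (p : ℂ) q u v m z) :=
      hol.differentiableAt (hopen.mem_nhds (hball z hz))
    exact DifferentiableAt.comp z h1 (hpsid z)
  have hpsi0 : psi (p : ℂ) q u v m 0 = 0 := by
    unfold psi; simp [show m ≠ 0 by omega]
  have hH0 : H 0 = 0 := by simp only [hH]; rw [hpsi0, h0]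
  -- derivative of psi at zero
  have hpsi' : HasDerivAt (psi (p : ℂ) q u v m) ((q : ℂ) • u) 0 := by
    unfold psi
    have h1 : HasDerivAt (fun z : ℂ => ((p : ℂ) * z ^ m) • v) ((0 : ℂ) • v) 0 := by
      apply HasDerivAt.smul_const
      have h2 := ((hasDerivAt_pow m (0 : ℂ)).const_mul (p : ℂ))
      rw [zero_pow (show m - 1 ≠ 0 by omega)] at h2
      simpa using h2
    have h3 : HasDerivAt (fun z : ℂ => ((q : ℂ) * z) • u) ((q : ℂ) • u) 0 := by
      apply HasDerivAt.smul_const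
      simpa using (hasDerivAt_id (0 : ℂ)).const_mul (q : ℂ)
    have h4 := h1.add h3
    rw [zero_smul, zero_add] at h4
    exact h4
  have hA1 : Real.circleAverage (fun z : ℂ => z⁻¹ • H z) 0 1 = (q : ℂ) • A u := by
    apply avg_ratio
    · intro z hz hz0
      exact (differentiableAt_inv hz0).smul (hHd z (by simpa using hz))
    · have hd' : HasFDerivAt h A (psi (p : ℂ) q u v m 0) := by
        rw [hpsi0]; exact hstrict.hasFDerivAt
      have h3 := hd'.comp_hasDerivAt (0 : ℂ) hpsi'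
      rw [hasDerivAt_iff_tendsto_slope] at h3
      rw [map_smul] at h3
      refine h3.congr' ?_
      filter_upwards [self_mem_nhdsWithin] with z hz
      rw [slope_def_module]
      simp only [Function.comp_apply]
      rw [hpsi0, h0, sub_zero, sub_zero]
  have hqlt : q < 1 := by nlinarith
  have hqu : ∀ z : ℂ, ‖z‖ ≤ 1 → z • ((q : ℂ) • u) ∈ ball (0 : E) 1 := by
    intro z hz
    rw [mem_ball_zero_iff, norm_smul, norm_smul, hqn, hu, mul_one]
    nlinarith [norm_nonneg z]
  have hfd : ∀ z : ℂ, ‖z‖ ≤ 1 → DifferentiableAt ℂ (fun z : ℂ => h (z • ((q : ℂ) • u))) z := by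
    intro z hz
    have h1 : DifferentiableAt ℂ h (z • ((q : ℂ) • u)) :=
      hol.differentiableAt (hopen.mem_nhds (hqu z hz))
    have h2 : DifferentiableAt ℂ (fun z : ℂ => z • ((q : ℂ) • u)) z := by fun_prop
    exact DifferentiableAt.comp z h1 h2
  have hAm1 : Real.circleAverage (fun z : ℂ => (z ^ m)⁻¹ • h (z • ((q : ℂ) • u))) 0 1 =
      (q : ℂ) ^ m • Pu := by
    rw [avg_coeff (f := fun z : ℂ => h (z • ((q : ℂ) • u))) _ m, slice hol]
    · have h1 := (iteratedFDeriv ℂ m h 0).map_smul_univ (fun _ => (q : ℂ)) (fun _ => u)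
      rw [h1, Finset.prod_const, Finset.card_univ, Fintype.card_fin, hPu, smul_comm]
    · intro z hz
      exact (hfd z (by simpa using hz)).differentiableWithinAt
  have hAm2 : Real.circleAverage (fun z : ℂ => (z ^ m)⁻¹ •
      (h (psi p q u v m z) - h (z • ((q : ℂ) • u)))) 0 1 = (p : ℂ) • A v := by
    apply avg_ratio
    · intro z hz hz0
      have hz1 : ‖z‖ ≤ 1 := by simpa using hz
      apply DifferentiableAt.smul
      · exact (differentiableAt_pow m).inv (pow_ne_zero _ hz0)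
      · exact (hHd z hz1).sub (hfd z hz1)
    · -- limit
      set y : ℂ → E := fun z => z • ((q : ℂ) • u) with hy
      have hxc : ContinuousAt (psi (p : ℂ) q u v m) 0 := (hpsid 0).continuousAt
      have hyc : ContinuousAt y 0 := by rw [hy]; fun_prop
      have hy0 : y 0 = 0 := by simp [hy]
      have hxy : Tendsto (fun z => (psi (p : ℂ) q u v m z, y z)) (𝓝[≠] 0)
          (𝓝 ((0 : E), (0 : E))) := by
        rw [nhds_prod_eq]
        apply Tendsto.prodMk
        · have := hxc.tendsto; rw [hpsi0] at this; exact this.mono_left nhdsWithin_le_nhds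
        · have := hyc.tendsto; rw [hy0] at this; exact this.mono_left nhdsWithin_le_nhds
      have hdiff : ∀ z : ℂ, psi (p : ℂ) q u v m z - y z = z ^ m • ((p : ℂ) • v) := by
        intro z
        simp only [hy]
        unfold psi
        match_scalars
        · ring
        · ring
      have hO : (fun z => psi (p : ℂ) q u v m z - y z) =O[𝓝[≠] 0] fun z : ℂ => z ^ m := by
        have h7 : (fun _ : ℂ => ((p : ℂ) • v)) =O[𝓝[≠] (0 : ℂ)] fun _ : ℂ => (1 : ℂ) :=
          Asymptotics.isBigO_const_const _ one_ne_zero _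
        have h8 := (Asymptotics.isBigO_refl (fun z : ℂ => z ^ m) (𝓝[≠] 0)).smul h7
        refine h8.congr ?_ ?_
        · intro z; rw [hdiff]
        · intro z; simp
      have hlo := hstrict.isLittleO.comp_tendsto hxy
      have hlo2 : (fun z => h (psi (p : ℂ) q u v m z) - h (y z) -
          A (psi (p : ℂ) q u v m z - y z)) =o[𝓝[≠] 0] fun z : ℂ => z ^ m := by
        refine (hlo.trans_isBigO ?_).congr_left ?_
        · exact hO
        · intro z; simp
      have h5 := hlo2.tendsto_inv_smul_nhds_zero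
      have h6 : Tendsto (fun _ : ℂ => (p : ℂ) • A v) (𝓝[≠] 0) (𝓝 ((p : ℂ) • A v)) :=
        tendsto_const_nhds
      have h7 := h5.add h6
      rw [zero_add] at h7
      refine h7.congr' ?_
      filter_upwards [self_mem_nhdsWithin] with z hz
      have hz' : z ^ m ≠ 0 := pow_ne_zero _ hz
      rw [hdiff, map_smul, map_smul, smul_sub (z ^ m)⁻¹ _ (z ^ m • _), smul_smul (z ^ m)⁻¹ (z ^ m),
        inv_mul_cancel₀ hz', one_smul]
      abel
  have hz_ne : ∀ z : ℂ, ‖z‖ = 1 → z ≠ 0 := by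
    intro z hz h; rw [h] at hz; simp at hz
  have cH : ∀ z : ℂ, ‖z‖ = 1 → ContinuousAt H z := fun z hz => (hHd z hz.le).continuousAt
  have cf : ∀ z : ℂ, ‖z‖ = 1 → ContinuousAt (fun z : ℂ => h (z • ((q : ℂ) • u))) z :=
    fun z hz => (hfd z hz.le).continuousAt
  have cinv : ∀ z : ℂ, ‖z‖ = 1 → ContinuousAt (fun z : ℂ => (z ^ m)⁻¹) z := by
    intro z hz
    exact ContinuousAt.inv₀ (by fun_prop) (pow_ne_zero _ (hz_ne z hz))
  have hAm : Real.circleAverage (fun z : ℂ => (z ^ m)⁻¹ • H z) 0 1 =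
      (q : ℂ) ^ m • Pu + (p : ℂ) • A v := by
    rw [← hAm1, ← hAm2, ← Real.circleAverage_fun_add]
    · congr 1
      ext z
      rw [← smul_add]
      congr 1
      simp only [hH]
      abel
    · exact circInt_of_cont fun z hz => (cinv z hz).smul (cf z hz)
    · exact circInt_of_cont fun z hz => (cinv z hz).smul ((cH z hz).sub (cf z hz))
  set X : ℂ → E := fun z => (p : ℂ) • ((z ^ m)⁻¹ • H z) with hX
  set Y : ℂ → E := fun z => (q : ℂ) • (z⁻¹ • H z) with hY
  have c1 : ∀ z : ℂ, ‖z‖ = 1 → ContinuousAt (fun z : ℂ => (z ^ m)⁻¹ • H z) z :=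
    fun z hz => (cinv z hz).smul (cH z hz)
  have c2 : ∀ z : ℂ, ‖z‖ = 1 → ContinuousAt (fun z : ℂ => z⁻¹ • H z) z :=
    fun z hz => (continuousAt_inv₀ (hz_ne z hz)).smul (cH z hz)
  have iX : CircleIntegrable X 0 1 := circInt_of_cont fun z hz => (c1 z hz).const_smul _
  have iY : CircleIntegrable Y 0 1 := circInt_of_cont fun z hz => (c2 z hz).const_smul _
  have aX : Real.circleAverage X 0 1 = (p : ℂ) • ((q : ℂ) ^ m • Pu + (p : ℂ) • A v) := by
    rw [hX, Real.circleAverage_fun_smul, hAm]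
  have aY : Real.circleAverage Y 0 1 = (q : ℂ) • ((q : ℂ) • A u) := by
    rw [hY, Real.circleAverage_fun_smul, hA1]
  let Lv : E →L[ℝ] ℝ := Complex.reCLM.comp ((innerSL ℂ v).restrictScalars ℝ)
  let Lu : E →L[ℝ] ℝ := Complex.reCLM.comp ((innerSL ℂ u).restrictScalars ℝ)
  have hLv : ∀ x : E, Lv x = (inner ℂ v x).re := fun x => rfl
  have hLu : ∀ x : E, Lu x = (inner ℂ u x).re := fun x => rfl
  have avX := Lv.circleAverage_comp_comm iX
  have auY := Lu.circleAverage_comp_comm iY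
  have jX : CircleIntegrable (Lv ∘ X) 0 1 := by
    apply circInt_of_cont
    intro z hz
    exact Lv.continuous.continuousAt.comp ((c1 z hz).const_smul _)
  have jY : CircleIntegrable (Lu ∘ Y) 0 1 := by
    apply circInt_of_cont
    intro z hz
    exact Lu.continuous.continuousAt.comp ((c2 z hz).const_smul _)
  have hsum := Real.circleAverage_add jX jY
  have hnonneg : 0 ≤ Real.circleAverage (Lv ∘ X + Lu ∘ Y) 0 1 := by
    apply Real.circleAverage_nonneg_of_nonneg
    intro z hz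
    have hz1 : ‖z‖ = 1 := by simpa using hz
    have hz0 := hz_ne z hz1
    show 0 ≤ (inner ℂ v (X z)).re + (inner ℂ u (Y z)).re
    have hne : psi (p : ℂ) q u v m z ≠ 0 := by
      intro h
      have h1 := norm_psi_sq (p := (p : ℂ)) (q := (q : ℂ)) hu hv huv m z
      rw [h, norm_zero, hz1, hpn, hqn] at h1
      have : 0 < p ^ 2 := by positivity
      have : 0 < q ^ 2 := by positivity
      simp at h1
      nlinarith
    have hP := hpos _ (hball z hz1.le) hne
    have hconj : (starRingEnd ℂ) z = z⁻¹ := by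
      have hzz : (starRingEnd ℂ) z * z = 1 := by
        rw [mul_comm, Complex.mul_conj, Complex.normSq_eq_norm_sq, hz1]; simp
      exact eq_inv_of_mul_eq_one_left hzz
    have hid : inner ℂ v (X z) + inner ℂ u (Y z) = inner ℂ (psi (p : ℂ) q u v m z) (H z) := by
      unfold psi
      rw [inner_add_left, inner_smul_left, inner_smul_left]
      rw [map_mul (starRingEnd ℂ) (p : ℂ), map_mul (starRingEnd ℂ) (q : ℂ),
          Complex.conj_ofReal, Complex.conj_ofReal, map_pow, hconj, inv_pow]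
      simp only [hX, hY, inner_smul_right]
      ring
    rw [← Complex.add_re, hid]
    exact hP.le
  rw [hsum, avX, auY, aX, aY, hLv, hLu] at hnonneg
  simp only [inner_add_right, inner_smul_right] at hnonneg
  rw [← Complex.add_re] at hnonneg
  have hfin : (p : ℂ) * ((q : ℂ) ^ m * inner ℂ v Pu + p * inner ℂ v (A v)) +
      q * (q * inner ℂ u (A u)) =
      ((p ^ 2 : ℝ) : ℂ) * inner ℂ v (A v) + ((q ^ 2 : ℝ) : ℂ) * inner ℂ u (A u) +
        ((p * q ^ m : ℝ) : ℂ) * inner ℂ v Pu := by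
    push_cast
    ring
  rw [hfin, Complex.add_re, Complex.add_re, Complex.re_ofReal_mul, Complex.re_ofReal_mul,
    Complex.re_ofReal_mul] at hnonneg
  exact hnonneg

end H14R3.Pure
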