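import Mathlib
import Pool.Agent.H14R3.Pure.Key
import Pool.Agent.H14R3.Pure.Amgm

set_option autoImplicit false

open Complex Metric Set Filter Topology Real

namespace H14R3.Pure

open H14R3.Cara

section general

variable {E : Type} [NormedAddCommGroup E] [InnerProductSpace ℂ E] [FiniteDimensional ℂ E]

theorem coef_bound {h : E → E} (hol : DifferentiableOn ℂ h (ball 0 1)) (h0 : h 0 = 0)
    {A : E →L[ℂ] E} (hd : fderiv ℂ h 0 = A)
    (hpos : ∀ z ∈ ball (0 : E) 1, z ≠ 0 → 0 < (inner ℂ z (h z)).re)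
    {u v : E} (hu : ‖u‖ = 1) (hv : ‖v‖ = 1) (huv : inner ℂ u v = (0 : ℂ)) {m : ℕ} (hm : 2 ≤ m)
    {a b : ℝ} (ha : (inner ℂ v (A v)).re = a) (hb : (inner ℂ u (A u)).re = b)
    {p q : ℝ} (hp : 0 < p) (hq : 0 < q) (hpq : p ^ 2 + q ^ 2 = 1) :
    ‖(inner ℂ v (((m.factorial : ℂ)⁻¹) • iteratedFDeriv ℂ m h 0 (fun _ => u)) : ℂ)‖ * (p * q ^ m) ≤
      a * p ^ 2 + b * q ^ 2 := by
  set Pu : E := ((m.factorial : ℂ)⁻¹) • iteratedFDeriv ℂ m h 0 (fun _ => u) with hPu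
  set x : ℂ := inner ℂ v Pu with hx
  obtain ⟨ω, hω, hωx⟩ : ∃ ω : ℂ, ‖ω‖ = 1 ∧ (starRingEnd ℂ) ω * x = ((-‖x‖ : ℝ) : ℂ) := by
    by_cases hx0 : x = 0
    · exact ⟨1, by simp, by rw [hx0]; simp⟩
    · have hxn : ‖x‖ ≠ 0 := norm_ne_zero_iff.2 hx0
      refine ⟨-(x / (‖x‖ : ℂ)), ?_, ?_⟩
      · rw [norm_neg, norm_div, Complex.norm_real, norm_norm, div_self hxn]
      · rw [map_neg, map_div₀, Complex.conj_ofReal]
        have h1 : (starRingEnd ℂ) x * x = ((‖x‖ ^ 2 : ℝ) : ℂ) := by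
          rw [mul_comm, Complex.mul_conj, Complex.normSq_eq_norm_sq]
        have h2 : (‖x‖ : ℂ) ≠ 0 := by exact_mod_cast hxn
        rw [neg_mul, div_mul_eq_mul_div, h1]
        push_cast
        field_simp
  have hv' : ‖ω • v‖ = 1 := by rw [norm_smul, hω, hv, one_mul]
  have huv' : inner ℂ u (ω • v) = (0 : ℂ) := by rw [inner_smul_right, huv, mul_zero]
  have hωω : (starRingEnd ℂ) ω * ω = 1 := by
    rw [mul_comm, Complex.mul_conj, Complex.normSq_eq_norm_sq, hω]; simp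
  have hAv : inner ℂ (ω • v) (A (ω • v)) = (inner ℂ v (A v) : ℂ) := by
    rw [map_smul, inner_smul_left, inner_smul_right, ← mul_assoc, hωω, one_mul]
  have hPv : inner ℂ (ω • v) Pu = ((-‖x‖ : ℝ) : ℂ) := by
    rw [inner_smul_left]; exact hωx
  have hkey : ∀ t : ℝ, 0 < t → t < 1 →
      ‖x‖ * ((t * p) * (t * q) ^ m) ≤ a * (t * p) ^ 2 + b * (t * q) ^ 2 := by
    intro t ht0 ht1
    have h1 : (t * p) ^ 2 + (t * q) ^ 2 < 1 := by
      have : (t * p) ^ 2 + (t * q) ^ 2 = t ^ 2 := by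
        rw [mul_pow, mul_pow, ← mul_add, hpq, mul_one]
      rw [this]; nlinarith
    have h2 := key hol h0 hd hpos hu hv' huv' hm (mul_pos ht0 hp) (mul_pos ht0 hq) h1
    rw [hAv, ha, hb, ← hPu, hPv, Complex.ofReal_re] at h2
    linarith
  have hlim : ‖x‖ * ((1 * p) * (1 * q) ^ m) ≤ a * (1 * p) ^ 2 + b * (1 * q) ^ 2 := by
    have hc1 : Tendsto (fun t : ℝ => ‖x‖ * ((t * p) * (t * q) ^ m)) (𝓝[<] 1)
        (𝓝 (‖x‖ * ((1 * p) * (1 * q) ^ m))) := by
      have : Continuous (fun t : ℝ => ‖x‖ * ((t * p) * (t * q) ^ m)) := by fun_prop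
      exact (this.tendsto 1).mono_left nhdsWithin_le_nhds
    have hc2 : Tendsto (fun t : ℝ => a * (t * p) ^ 2 + b * (t * q) ^ 2) (𝓝[<] 1)
        (𝓝 (a * (1 * p) ^ 2 + b * (1 * q) ^ 2)) := by
      have : Continuous (fun t : ℝ => a * (t * p) ^ 2 + b * (t * q) ^ 2) := by fun_prop
      exact (this.tendsto 1).mono_left nhdsWithin_le_nhds
    apply le_of_tendsto_of_tendsto hc1 hc2
    filter_upwards [Ioo_mem_nhdsLT (show (0 : ℝ) < 1 by norm_num)] with t ht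
    exact hkey t ht.1 ht.2
  rwa [one_mul, one_mul] at hlim

theorem coef_le_bnd {h : E → E} (hol : DifferentiableOn ℂ h (ball 0 1)) (h0 : h 0 = 0)
    {A : E →L[ℂ] E} (hd : fderiv ℂ h 0 = A)
    (hpos : ∀ z ∈ ball (0 : E) 1, z ≠ 0 → 0 < (inner ℂ z (h z)).re)
    {u v : E} (hu : ‖u‖ = 1) (hv : ‖v‖ = 1) (huv : inner ℂ u v = (0 : ℂ)) {m : ℕ} (hm : 2 ≤ m)
    {a b : ℝ} (ha0 : 0 < a) (hb0 : 0 < b)
    (ha : (inner ℂ v (A v)).re = a) (hb : (inner ℂ u (A u)).re = b) :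
    ‖(inner ℂ v (((m.factorial : ℂ)⁻¹) • iteratedFDeriv ℂ m h 0 (fun _ => u)) : ℂ)‖ ≤
      bnd a b m := by
  have hs0 := root_pos (k := m) ha0 hb0
  have hs1 := root_lt_one ha0 hb0 hm
  have h1s : 0 < 1 - root a b m := by linarith
  have hp := Real.sqrt_pos.2 hs0
  have hq := Real.sqrt_pos.2 h1s
  have hpq : √(root a b m) ^ 2 + √(1 - root a b m) ^ 2 = 1 := by
    rw [Real.sq_sqrt hs0.le, Real.sq_sqrt h1s.le]; ring
  have := coef_bound hol h0 hd hpos hu hv huv hm ha hb hp hq hpq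
  rw [Real.sq_sqrt hs0.le, Real.sq_sqrt h1s.le] at this
  unfold bnd
  rw [le_div_iff₀ (by positivity)]
  refine this.trans (le_of_eq ?_)
  ring

/-- Taylor coefficients of scalar slices. -/
theorem taylor_slice {h : E → E} (hol : DifferentiableOn ℂ h (ball 0 1)) (L : E →L[ℂ] ℂ) (u : E)
    (m : ℕ) : iteratedDeriv m (fun l : ℂ => L (h (l • u))) 0 =
      L (iteratedFDeriv ℂ m h 0 (fun _ => u)) := by
  have hLd : DifferentiableOn ℂ (L ∘ h) (ball 0 1) := L.differentiable.comp_differentiableOn hol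
  have hsl := slice hLd u m
  have hcontd : ContDiffAt ℂ m h 0 := by
    have := Pool.Agent.Helper540.contDiffOn_of_differentiableOn isOpen_ball hol m
    exact this.contDiffAt (isOpen_ball.mem_nhds (by simp))
  have hcomp : iteratedFDeriv ℂ m (L ∘ h) 0 (fun _ => u) =
      L (iteratedFDeriv ℂ m h 0 (fun _ => u)) := by
    rw [L.iteratedFDeriv_comp_left hcontd le_rfl]
    rfl
  rw [iteratedDeriv_eq_iteratedFDeriv, ← hcomp, ← hsl]
  rfl

end general

/-- The family `𝓝_A`, `A = diag(λ, 1)`, on the unit ball of `ℂ²`. In Mathlib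
`inner ℂ z w = ∑ j, conj (z j) * w j`, so `inner ℂ z (h z)` is `⟨h(z), z⟩`. -/
structure InN (lam : ℝ) (h : EuclideanSpace ℂ (Fin 2) → EuclideanSpace ℂ (Fin 2)) : Prop where
  holo : DifferentiableOn ℂ h (ball 0 1)
  map_zero : h 0 = 0
  fderiv_zero : ∀ z : EuclideanSpace ℂ (Fin 2), fderiv ℂ h 0 z = !₂[(lam : ℂ) * z 0, z 1]
  pos : ∀ z ∈ ball (0 : EuclideanSpace ℂ (Fin 2)) 1, z ≠ 0 → 0 < (inner ℂ z (h z)).re

/-- The coefficient of `z_2^k` in `h_1`. -/
noncomputable def q1 (h : EuclideanSpace ℂ (Fin 2) → EuclideanSpace ℂ (Fin 2)) (k : ℕ) : ℂ :=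
  (k.factorial : ℂ)⁻¹ * iteratedDeriv k (fun w : ℂ => h !₂[0, w] 0) 0

/-- The coefficient of `z_1^k` in `h_2`. -/
noncomputable def q2 (h : EuclideanSpace ℂ (Fin 2) → EuclideanSpace ℂ (Fin 2)) (k : ℕ) : ℂ :=
  (k.factorial : ℂ)⁻¹ * iteratedDeriv k (fun w : ℂ => h !₂[w, 0] 1) 0

theorem q1_eq {lam : ℝ} {h : EuclideanSpace ℂ (Fin 2) → EuclideanSpace ℂ (Fin 2)}
    (hh : InN lam h) (k : ℕ) :
    q1 h k = inner ℂ (EuclideanSpace.single (0 : Fin 2) (1 : ℂ))
      (((k.factorial : ℂ)⁻¹) • iteratedFDeriv ℂ k h 0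
        (fun _ => EuclideanSpace.single (1 : Fin 2) (1 : ℂ))) := by
  have h1 := taylor_slice hh.holo (innerSL ℂ (EuclideanSpace.single (0 : Fin 2) (1 : ℂ)))
    (EuclideanSpace.single (1 : Fin 2) (1 : ℂ)) k
  have h2 : (fun l : ℂ => (innerSL ℂ (EuclideanSpace.single (0 : Fin 2) (1 : ℂ)))
      (h (l • EuclideanSpace.single (1 : Fin 2) (1 : ℂ)))) = fun w : ℂ => h !₂[0, w] 0 := by
    ext l
    rw [innerSL_apply_apply, EuclideanSpace.inner_single_left]
    have : l • EuclideanSpace.single (1 : Fin 2) (1 : ℂ) = !₂[0, l] := by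
      ext i; fin_cases i <;> simp
    rw [this]
    simp
  rw [h2] at h1
  unfold q1
  rw [h1, inner_smul_right]
  rfl

theorem q2_eq {lam : ℝ} {h : EuclideanSpace ℂ (Fin 2) → EuclideanSpace ℂ (Fin 2)}
    (hh : InN lam h) (k : ℕ) :
    q2 h k = inner ℂ (EuclideanSpace.single (1 : Fin 2) (1 : ℂ))
      (((k.factorial : ℂ)⁻¹) • iteratedFDeriv ℂ k h 0
        (fun _ => EuclideanSpace.single (0 : Fin 2) (1 : ℂ))) := by
  have h1 := taylor_slice hh.holo (innerSL ℂ (EuclideanSpace.single (1 : Fin 2) (1 : ℂ)))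
    (EuclideanSpace.single (0 : Fin 2) (1 : ℂ)) k
  have h2 : (fun l : ℂ => (innerSL ℂ (EuclideanSpace.single (1 : Fin 2) (1 : ℂ)))
      (h (l • EuclideanSpace.single (0 : Fin 2) (1 : ℂ)))) = fun w : ℂ => h !₂[w, 0] 1 := by
    ext l
    rw [innerSL_apply_apply, EuclideanSpace.inner_single_left]
    have : l • EuclideanSpace.single (0 : Fin 2) (1 : ℂ) = !₂[l, 0] := by
      ext i; fin_cases i <;> simp
    rw [this]
    simp
  rw [h2] at h1
  unfold q2
  rw [h1, inner_smul_right]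
  rfl

theorem q1_le {lam : ℝ} (hlam : 0 < lam)
    {h : EuclideanSpace ℂ (Fin 2) → EuclideanSpace ℂ (Fin 2)}
    (hh : InN lam h) {k : ℕ} (hk : 2 ≤ k) : ‖q1 h k‖ ≤ bnd lam 1 k := by
  rw [q1_eq hh k]
  apply coef_le_bnd hh.holo hh.map_zero rfl hh.pos (by simp) (by simp) _ hk hlam one_pos
  · rw [hh.fderiv_zero, EuclideanSpace.inner_single_left]; simp
  · rw [hh.fderiv_zero, EuclideanSpace.inner_single_left]; simp
  · rw [EuclideanSpace.inner_single_left]; simp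

theorem q2_le {lam : ℝ} (hlam : 0 < lam)
    {h : EuclideanSpace ℂ (Fin 2) → EuclideanSpace ℂ (Fin 2)}
    (hh : InN lam h) {k : ℕ} (hk : 2 ≤ k) : ‖q2 h k‖ ≤ bnd 1 lam k := by
  rw [q2_eq hh k]
  apply coef_le_bnd hh.holo hh.map_zero rfl hh.pos (by simp) (by simp) _ hk one_pos hlam
  · rw [hh.fderiv_zero, EuclideanSpace.inner_single_left]; simp
  · rw [hh.fderiv_zero, EuclideanSpace.inner_single_left]; simp
  · rw [EuclideanSpace.inner_single_left]; simp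

/-- `(λ z_1, z_2) + B z_j^k e_i` -/
noncomputable def ext (lam B : ℝ) (k : ℕ) (i j : Fin 2) (z : EuclideanSpace ℂ (Fin 2)) :
    EuclideanSpace ℂ (Fin 2) :=
  !₂[(lam : ℂ) * z 0, z 1] + ((B : ℂ) * z j ^ k) • EuclideanSpace.single i (1 : ℂ)

theorem bnd_pos {a b : ℝ} (ha : 0 < a) (hb : 0 < b) {k : ℕ} (hk : 2 ≤ k) : 0 < bnd a b k := by
  have hs0 := root_pos (k := k) ha hb
  have hs1 := root_lt_one ha hb hk
  have h1s : 0 < 1 - root a b k := by linarith
  have hp := Real.sqrt_pos.2 hs0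
  have hq := Real.sqrt_pos.2 h1s
  unfold bnd
  have : 0 < b + (a - b) * root a b k := by nlinarith
  positivity

theorem ext_inN {lam : ℝ} (hlam : 0 < lam) {k : ℕ} (hk : 2 ≤ k) {i j : Fin 2} (hij : i ≠ j)
    {a b : ℝ} (ha : 0 < a) (hb : 0 < b)
    (hab : ∀ x : Fin 2 → ℝ, lam * x 0 + x 1 = a * x i + b * x j) :
    InN lam (ext lam (bnd a b k) k i j) := by
  have hcoord : ∀ (l : Fin 2) (z : EuclideanSpace ℂ (Fin 2)), HasFDerivAt
      (fun z : EuclideanSpace ℂ (Fin 2) => z l)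
      (EuclideanSpace.proj l : EuclideanSpace ℂ (Fin 2) →L[ℂ] ℂ) z :=
    fun l z => (EuclideanSpace.proj (𝕜 := ℂ) l).hasFDerivAt
  have hlinform : ∀ z : EuclideanSpace ℂ (Fin 2), !₂[(lam : ℂ) * z 0, z 1] =
      ((lam : ℂ) * z 0) • EuclideanSpace.single (0 : Fin 2) (1 : ℂ) +
        (z 1) • EuclideanSpace.single (1 : Fin 2) (1 : ℂ) := by
    intro z
    ext l; fin_cases l <;> simp
  have hpow : ∀ z : EuclideanSpace ℂ (Fin 2), HasFDerivAt (ext lam (bnd a b k) k i j)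
      (((((lam : ℂ) • (EuclideanSpace.proj (0 : Fin 2) : EuclideanSpace ℂ (Fin 2) →L[ℂ] ℂ)).smulRight
          (EuclideanSpace.single (0 : Fin 2) (1 : ℂ))) +
        ((EuclideanSpace.proj (1 : Fin 2) : EuclideanSpace ℂ (Fin 2) →L[ℂ] ℂ).smulRight
          (EuclideanSpace.single (1 : Fin 2) (1 : ℂ)))) +
        ((((bnd a b k : ℝ) : ℂ) • ((k : ℂ) * z j ^ (k - 1)) •
        (EuclideanSpace.proj j : EuclideanSpace ℂ (Fin 2) →L[ℂ] ℂ))).smulRight
          (EuclideanSpace.single i (1 : ℂ))) z := by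
    intro z
    have hfun : ext lam (bnd a b k) k i j = fun z : EuclideanSpace ℂ (Fin 2) =>
        (((lam : ℂ) * z 0) • EuclideanSpace.single (0 : Fin 2) (1 : ℂ) +
        (z 1) • EuclideanSpace.single (1 : Fin 2) (1 : ℂ)) +
        (((bnd a b k : ℝ) : ℂ) * z j ^ k) • EuclideanSpace.single i (1 : ℂ) := by
      ext z : 1
      unfold ext
      rw [hlinform]
    rw [hfun]
    apply HasFDerivAt.add
    · apply HasFDerivAt.add
      · apply HasFDerivAt.smul_const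
        exact (hcoord 0 z).const_mul (lam : ℂ)
      · apply HasFDerivAt.smul_const
        exact hcoord 1 z
    · apply HasFDerivAt.smul_const
      have h1 := (hcoord j z).pow k
      have h2 := h1.const_mul ((bnd a b k : ℝ) : ℂ)
      convert h2 using 1
      simp
  refine ⟨?_, ?_, ?_, ?_⟩
  · intro z _
    exact (hpow z).differentiableAt.differentiableWithinAt
  · unfold ext
    rw [hlinform]
    simp [show k ≠ 0 by omega]
  · intro z
    rw [(hpow 0).fderiv]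
    have h0 : ((0 : EuclideanSpace ℂ (Fin 2)) j) ^ (k - 1) = 0 := by
      simp [show k - 1 ≠ 0 by omega]
    rw [h0, mul_zero, hlinform]
    ext l
    simp
  · intro z hz hz0
    have hzn : 0 < ‖z‖ := norm_pos_iff.2 hz0
    have hz1 : ‖z‖ < 1 := by simpa using hz
    have hnsq : ‖z‖ ^ 2 = ‖z i‖ ^ 2 + ‖z j‖ ^ 2 := by
      rw [EuclideanSpace.norm_sq_eq, Fin.sum_univ_two]
      fin_cases i <;> fin_cases j <;> simp_all
      ring
    have hin1 : (inner ℂ z (!₂[(lam : ℂ) * z 0, z 1]) : ℂ).re = a * ‖z i‖ ^ 2 + b * ‖z j‖ ^ 2 := by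
      rw [← hab (fun l => ‖z l‖ ^ 2)]
      rw [hlinform, inner_add_right, inner_smul_right, inner_smul_right,
        EuclideanSpace.inner_single_right, EuclideanSpace.inner_single_right, Complex.add_re]
      have e1 : ((lam : ℂ) * z 0 * ((1 : ℂ) * (starRingEnd ℂ) (z 0))) =
          ((lam * ‖z 0‖ ^ 2 : ℝ) : ℂ) := by
        have : z 0 * (starRingEnd ℂ) (z 0) = ((‖z 0‖ ^ 2 : ℝ) : ℂ) := by
          rw [Complex.mul_conj, Complex.normSq_eq_norm_sq]
        push_cast at this ⊢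
        linear_combination (lam : ℂ) * this
      have e2 : (z 1 * ((1 : ℂ) * (starRingEnd ℂ) (z 1))) = ((‖z 1‖ ^ 2 : ℝ) : ℂ) := by
        rw [one_mul, Complex.mul_conj, Complex.normSq_eq_norm_sq]
      rw [e1, e2, Complex.ofReal_re, Complex.ofReal_re]
    unfold ext
    rw [inner_add_right, inner_smul_right, Complex.add_re, hin1]
    have h2 : (inner ℂ z (EuclideanSpace.single i (1 : ℂ)) : ℂ) = (starRingEnd ℂ) (z i) := by
      rw [EuclideanSpace.inner_single_right]; simp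
    rw [h2]
    have h3 : |(((bnd a b k : ℝ) : ℂ) * z j ^ k * (starRingEnd ℂ) (z i)).re| ≤
        bnd a b k * (‖z i‖ * ‖z j‖ ^ k) := by
      refine (Complex.abs_re_le_norm _).trans (le_of_eq ?_)
      rw [norm_mul, norm_mul, norm_pow, Complex.norm_real,
        Real.norm_of_nonneg (bnd_pos ha hb hk).le, Complex.norm_conj]
      ring
    have h5 := bnd_ineq ha hb hk (norm_nonneg (z i)) (norm_nonneg (z j))
    rw [← hnsq, Real.sqrt_sq hzn.le] at h5
    have h6 : ‖z‖ ^ (k - 1) < 1 := pow_lt_one₀ hzn.le hz1 (by omega)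
    have h7 := neg_abs_le (((bnd a b k : ℝ) : ℂ) * z j ^ k * (starRingEnd ℂ) (z i)).re
    have h8 : 0 < a * ‖z i‖ ^ 2 + b * ‖z j‖ ^ 2 := by
      have h9 : 0 < ‖z i‖ ^ 2 + ‖z j‖ ^ 2 := by rw [← hnsq]; positivity
      rcases (sq_nonneg ‖z i‖).eq_or_lt with h10 | h10
      · rw [← h10] at h9 ⊢
        have : 0 < b * ‖z j‖ ^ 2 := by apply mul_pos hb; linarith
        linarith
      · have : 0 < a * ‖z i‖ ^ 2 := mul_pos ha h10
        have : 0 ≤ b * ‖z j‖ ^ 2 := by positivity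
        linarith
    nlinarith

end H14R3.Pure
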